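import Pool.Agent.MP_aef39a_lc.Basic

/-!
Images of sets under words, mergeable pairs, and the span argument.
-/

namespace Pool.Agent.MP_aef39a_lc.H46

open Pool.Agent.MP_aef39a_lc

variable {Q A : Type}

/-- The image of a set of states under a word. -/
def img [DecidableEq Q] (δ : Q → A → Q) (S : Finset Q) (w : List A) : Finset Q :=
  S.image fun q => act δ q w

/-- The rank of a word. -/
def rk [Fintype Q] [DecidableEq Q] (δ : Q → A → Q) (w : List A) : ℕ :=
  (img δ Finset.univ w).card

/-- Two states are merged by a word of length at most `t`. -/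
def Near (δ : Q → A → Q) (t : ℕ) (p q : Q) : Prop :=
  ∃ w : List A, w.length ≤ t ∧ act δ p w = act δ q w

theorem Near.mono {δ : Q → A → Q} {s t : ℕ} {p q : Q} (h : Near δ s p q) (hst : s ≤ t) :
    Near δ t p q := by
  obtain ⟨w, hw, e⟩ := h
  exact ⟨w, hw.trans hst, e⟩

theorem Near.symm {δ : Q → A → Q} {t : ℕ} {p q : Q} (h : Near δ t p q) : Near δ t q p := by
  obtain ⟨w, hw, e⟩ := h
  exact ⟨w, hw, e.symm⟩

theorem Near.pull {δ : Q → A → Q} {t : ℕ} {p q : Q} (v : List A)
    (h : Near δ t (act δ p v) (act δ q v)) : Near δ (t + v.length) p q := by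
  obtain ⟨w, hw, e⟩ := h
  refine ⟨v ++ w, by simp only [List.length_append]; omega, ?_⟩
  rw [act_append, act_append, e]

theorem mem_img [DecidableEq Q] {δ : Q → A → Q} {S : Finset Q} {w : List A} {y : Q} :
    y ∈ img δ S w ↔ ∃ p ∈ S, act δ p w = y := by
  simp [img]

theorem img_append [DecidableEq Q] (δ : Q → A → Q) (S : Finset Q) (u v : List A) :
    img δ S (u ++ v) = img δ (img δ S u) v := by
  ext y
  simp only [mem_img, act_append]
  constructor
  · rintro ⟨p, hp, e⟩
    exact ⟨_, ⟨p, hp, rfl⟩, e⟩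
  · rintro ⟨_, ⟨p, hp, rfl⟩, e⟩
    exact ⟨p, hp, e⟩

theorem img_mono [DecidableEq Q] (δ : Q → A → Q) {S T : Finset Q} (h : S ⊆ T) (w : List A) :
    img δ S w ⊆ img δ T w := Finset.image_subset_image h

theorem card_img_le [DecidableEq Q] (δ : Q → A → Q) (S : Finset Q) (w : List A) :
    (img δ S w).card ≤ S.card := Finset.card_image_le

theorem card_img_lt [DecidableEq Q] (δ : Q → A → Q) {S : Finset Q} {w : List A} {p q : Q}
    (hp : p ∈ S) (hq : q ∈ S) (hpq : p ≠ q) (e : act δ p w = act δ q w) :
    (img δ S w).card < S.card := by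
  refine lt_of_le_of_ne (card_img_le δ S w) fun h => hpq ?_
  exact Finset.card_image_iff.1 h hp hq e

theorem rk_le [Fintype Q] [DecidableEq Q] (δ : Q → A → Q) (w : List A) :
    rk δ w ≤ Fintype.card Q := Finset.card_le_univ _

theorem rk_append_le [Fintype Q] [DecidableEq Q] (δ : Q → A → Q) (u v : List A) :
    rk δ (u ++ v) ≤ rk δ u := by
  unfold rk
  rw [img_append]
  exact card_img_le _ _ _

theorem reset_of_rk [Fintype Q] [DecidableEq Q] (δ : Q → A → Q) {w : List A} (h : rk δ w ≤ 1) :
    IsReset δ w := fun p q =>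
  Finset.card_le_one.1 h _ (mem_img.2 ⟨p, Finset.mem_univ _, rfl⟩) _
    (mem_img.2 ⟨q, Finset.mem_univ _, rfl⟩)

/-- The span of the pull-backs of `g` along words of length at most `i`. -/
def sp (δ : Q → A → Q) (g : Q → ℚ) (i : ℕ) : Submodule ℚ (Q → ℚ) :=
  Submodule.span ℚ {f | ∃ v : List A, v.length ≤ i ∧ f = fun p => g (act δ p v)}

theorem sp_mono (δ : Q → A → Q) (g : Q → ℚ) (i : ℕ) : sp δ g i ≤ sp δ g (i + 1) :=
  Submodule.span_mono fun _ ⟨v, hv, e⟩ => ⟨v, by omega, e⟩

theorem sp_pull (δ : Q → A → Q) (g : Q → ℚ) (i : ℕ) (a : A) {f : Q → ℚ} (hf : f ∈ sp δ g i) :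
    (fun p => f (δ p a)) ∈ sp δ g (i + 1) := by
  induction hf using Submodule.span_induction with
  | mem f hf =>
    obtain ⟨v, hv, rfl⟩ := hf
    exact Submodule.subset_span ⟨a :: v, by simpa using hv, rfl⟩
  | zero => exact (sp δ g (i + 1)).zero_mem
  | add f f' _ _ h h' => exact (sp δ g (i + 1)).add_mem h h'
  | smul c f _ h => exact (sp δ g (i + 1)).smul_mem c h

theorem sp_stable (δ : Q → A → Q) (g : Q → ℚ) (i : ℕ) (h : sp δ g (i + 1) = sp δ g i)
    (w : List A) : (fun p => g (act δ p w)) ∈ sp δ g i := by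
  induction w with
  | nil => exact Submodule.subset_span ⟨[], by simp, rfl⟩
  | cons a w ih => exact h ▸ sp_pull δ g i a ih

/-- The span argument: a linear condition that holds for all words of length at most `n`
holds for all words. -/
theorem chain [Fintype Q] (δ : Q → A → Q) (g : Q → ℚ) (ψ : (Q → ℚ) →ₗ[ℚ] ℚ)
    (h : ∀ v : List A, v.length ≤ Fintype.card Q → ψ (fun p => g (act δ p v)) = 0)
    (w : List A) : ψ (fun p => g (act δ p w)) = 0 := by
  have hex : ∃ i, i ≤ Fintype.card Q ∧ sp δ g (i + 1) = sp δ g i := by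
    by_contra hne
    push Not at hne
    have key : ∀ i, i ≤ Fintype.card Q + 1 → i ≤ Module.finrank ℚ (sp δ g i) := by
      intro i
      induction i with
      | zero => intro _; exact Nat.zero_le _
      | succ i ih =>
        intro hi
        have h1 := ih (by omega)
        have h2 : sp δ g i < sp δ g (i + 1) :=
          lt_of_le_of_ne (sp_mono δ g i) (hne i (by omega)).symm
        have h3 := Submodule.finrank_lt_finrank_of_lt h2
        omega
    have h1 := key _ le_rfl
    have h2 := Submodule.finrank_le (sp δ g (Fintype.card Q + 1))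
    rw [Module.finrank_fintype_fun_eq_card] at h2
    omega
  obtain ⟨i, hi, hs⟩ := hex
  have hker : sp δ g i ≤ LinearMap.ker ψ := by
    refine Submodule.span_le.2 ?_
    rintro f ⟨v, hv, rfl⟩
    exact h v (hv.trans hi)
  exact hker (sp_stable δ g i hs w)

/-- A set that can be reached can be reached in at most `n` steps. -/
theorem reach [Fintype Q] (δ : Q → A → Q) (C : Q → Prop) (p : Q) (h : ∃ w, C (act δ p w)) :
    ∃ w : List A, w.length ≤ Fintype.card Q ∧ C (act δ p w) := by
  classical
  by_contra hne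
  push Not at hne
  obtain ⟨w, hw⟩ := h
  have := chain δ (fun q => if C q then 1 else 0) (LinearMap.proj p)
    (fun v hv => by simp [hne v hv]) w
  simp [hw] at this

/-- Some word of length at most `n` sends no element or at least two elements of `S` to `a`. -/
theorem avoid [Fintype Q] [DecidableEq Q] (δ : Q → A → Q) (hs : ∃ w, IsReset δ w) (S : Finset Q)
    (hS : 2 ≤ S.card) (a : Q) :
    ∃ w : List A, w.length ≤ Fintype.card Q ∧ (S.filter fun p => act δ p w = a).card ≠ 1 := by
  by_contra hne
  push Not at hne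
  obtain ⟨w, hw⟩ := hs
  have hk : (S.card : ℚ) ≠ 0 := by
    have : S.card ≠ 0 := by omega
    exact_mod_cast this
  have hsum : ∀ v : List A, (∑ p ∈ S, LinearMap.proj (R := ℚ) (φ := fun _ : Q => ℚ) p)
      (fun p => (fun q => (if q = a then (1 : ℚ) else 0) - 1 / S.card) (act δ p v)) =
      ((S.filter fun p => act δ p v = a).card : ℚ) - 1 := by
    intro v
    simp only [LinearMap.sum_apply, LinearMap.proj_apply, Finset.sum_sub_distrib,
      Finset.sum_boole, Finset.sum_const, nsmul_eq_mul]
    field_simp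
  have := chain δ (fun q => (if q = a then (1 : ℚ) else 0) - 1 / S.card)
    (∑ p ∈ S, LinearMap.proj p) (fun v hv => by rw [hsum v, hne v hv]; simp) w
  rw [hsum w, sub_eq_zero] at this
  have h1 : (S.filter fun p => act δ p w = a).card = 1 := by exact_mod_cast this
  obtain ⟨x, hx⟩ := Finset.card_eq_one.1 h1
  have hxm : x ∈ S.filter fun p => act δ p w = a := hx ▸ Finset.mem_singleton_self x
  have hall : (S.filter fun p => act δ p w = a) = S :=
    Finset.filter_true_of_mem fun p _ => (hw p x).trans (Finset.mem_filter.1 hxm).2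
  rw [hall] at h1
  omega

end Pool.Agent.MP_aef39a_lc.H46
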