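import Pool.Agent.MP_aef39a_lc.H46.Base

/-!
The skew set-pair inequality for pairs and the Frankl-Pin compression bound.
-/

namespace Pool.Agent.MP_aef39a_lc.H46

open Pool.Agent.MP_aef39a_lc Polynomial

variable {Q A : Type}

/-- Evaluation of a symmetric coefficient table at a pair of numbers. -/
noncomputable def ev (b : ℕ) (s t : ℚ) : (Sym2 (Fin (b + 1)) → ℚ) →ₗ[ℚ] ℚ :=
  ∑ i : Fin (b + 1), ∑ j : Fin (b + 1), (s ^ (i : ℕ) * t ^ (j : ℕ)) • LinearMap.proj s(i, j)

/-- The table of the symmetric square of a polynomial. -/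
noncomputable def sq (b : ℕ) (g : ℚ[X]) : Sym2 (Fin (b + 1)) → ℚ :=
  Sym2.lift ⟨fun i j => g.coeff i * g.coeff j, fun _ _ => mul_comm _ _⟩

theorem ev_sq (b : ℕ) (s t : ℚ) (g : ℚ[X]) (hg : g.natDegree ≤ b) :
    ev b s t (sq b g) = g.eval s * g.eval t := by
  rw [eval_eq_sum_range' (Nat.lt_succ_of_le hg), eval_eq_sum_range' (Nat.lt_succ_of_le hg),
    Finset.sum_range, Finset.sum_range, Finset.sum_mul_sum]
  simp only [ev, LinearMap.sum_apply, LinearMap.smul_apply, LinearMap.proj_apply, sq,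
    Sym2.lift_mk, smul_eq_mul]
  refine Finset.sum_congr rfl fun i _ => Finset.sum_congr rfl fun j _ => ?_
  ring

theorem skew [Fintype Q] (T b : ℕ) (x y : Fin T → Q) (B : Fin T → Finset Q)
    (hB : ∀ i, (B i).card ≤ b) (hx : ∀ i, x i ∉ B i) (hy : ∀ i, y i ∉ B i)
    (h : ∀ i j, i < j → x j ∈ B i ∨ y j ∈ B i) : 2 * T ≤ (b + 1) * (b + 2) := by
  classical
  let c : Q → ℚ := fun q => ((Fintype.equivFin Q q : ℕ) : ℚ)
  have hc : Function.Injective c := fun p q e => by
    have e1 : ((Fintype.equivFin Q p : ℕ)) = (Fintype.equivFin Q q : ℕ) := by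
      simpa [c] using e
    exact (Fintype.equivFin Q).injective (Fin.ext e1)
  let g : Fin T → ℚ[X] := fun i => ∏ q ∈ B i, (X - C (c q))
  have hdeg : ∀ i, (g i).natDegree ≤ b := fun i => by
    simp only [g]
    rw [natDegree_finsetProd_X_sub_C_eq_card]
    exact hB i
  have hev : ∀ i q, (g i).eval (c q) = 0 ↔ q ∈ B i := fun i q => by
    simp only [g, eval_prod, eval_sub, eval_X, eval_C, Finset.prod_eq_zero_iff, sub_eq_zero]
    exact ⟨fun ⟨p, hp, e⟩ => hc e ▸ hp, fun hq => ⟨q, hq, rfl⟩⟩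
  have hli : LinearIndependent ℚ fun i => sq b (g i) := by
    rw [Fintype.linearIndependent_iff]
    intro a ha
    by_contra hne
    push Not at hne
    obtain ⟨j, hj, hmax⟩ := Finset.exists_max_image (Finset.univ.filter fun i => a i ≠ 0) id
      (by obtain ⟨i, hi⟩ := hne; exact ⟨i, by simpa using hi⟩)
    have hj' : a j ≠ 0 := by simpa using hj
    have e := congrArg (ev b (c (x j)) (c (y j))) ha
    rw [map_sum, map_zero, Finset.sum_eq_single j] at e
    · rw [map_smul, ev_sq _ _ _ _ (hdeg j), smul_eq_mul] at e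
      rcases mul_eq_zero.1 e with e | e
      · exact hj' e
      · rcases mul_eq_zero.1 e with e | e
        · exact hx j ((hev j _).1 e)
        · exact hy j ((hev j _).1 e)
    · intro i _ hij
      rw [map_smul, ev_sq _ _ _ _ (hdeg i), smul_eq_mul]
      by_cases hi : a i = 0
      · rw [hi, zero_mul]
      · have hle : i ≤ j := hmax i (by simpa using hi)
        rcases h i j (lt_of_le_of_ne hle hij) with e | e
        · rw [(hev i _).2 e, zero_mul, mul_zero]
        · rw [(hev i _).2 e, mul_zero, mul_zero]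
    · intro hj
      exact absurd (Finset.mem_univ j) hj
  have hcard := hli.fintype_card_le_finrank
  rw [Module.finrank_fintype_fun_eq_card, Sym2.card, Fintype.card_fin, Fintype.card_fin,
    Nat.choose_two_right] at hcard
  have h2 : (b + 1 + 1) * (b + 1 + 1 - 1) / 2 * 2 ≤ (b + 1 + 1) * (b + 1 + 1 - 1) :=
    Nat.div_mul_le_self _ _
  have h3 : (b + 1 + 1) * (b + 1 + 1 - 1) = (b + 1) * (b + 2) := by
    rw [Nat.add_sub_cancel]; ring
  omega

/-- Frankl-Pin: a set of `k ≥ 2` states contains a pair merged in `C(n-k+2, 2)` steps. -/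
theorem frankl [Fintype Q] [DecidableEq Q] (δ : Q → A → Q) (hs : ∃ w, IsReset δ w) (S : Finset Q)
    (hS : 2 ≤ S.card) : ∃ p ∈ S, ∃ q ∈ S, p ≠ q ∧
      Near δ ((Fintype.card Q - S.card + 1) * (Fintype.card Q - S.card + 2) / 2) p q := by
  classical
  have hex : ∃ t, ∃ p ∈ S, ∃ q ∈ S, p ≠ q ∧ Near δ t p q := by
    obtain ⟨w, hw⟩ := hs
    obtain ⟨p, hp, q, hq, hpq⟩ := Finset.one_lt_card.1 hS
    exact ⟨w.length, p, hp, q, hq, hpq, w, le_rfl, hw p q⟩
  obtain ⟨p, hp, q, hq, hpq, w, hw, e⟩ := Nat.find_spec hex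
  have hmin : ∀ p ∈ S, ∀ q ∈ S, p ≠ q → ∀ v : List A, v.length < Nat.find hex →
      act δ p v ≠ act δ q v := fun p hp q hq hpq v hv e =>
    Nat.find_min hex hv ⟨p, hp, q, hq, hpq, v, le_rfl, e⟩
  have hlen : w.length = Nat.find hex := by
    by_contra hne
    exact hmin p hp q hq hpq w (by omega) e
  have hT := skew (Nat.find hex) (Fintype.card Q - S.card)
    (fun i => act δ p (w.take i)) (fun i => act δ q (w.take i))
    (fun i => (img δ S (w.take i))ᶜ) ?_ ?_ ?_ ?_
  · refine ⟨p, hp, q, hq, hpq, w, ?_, e⟩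
    rw [Nat.le_div_iff_mul_le (by norm_num)]
    omega
  · intro i
    rw [Finset.card_compl]
    have : (img δ S (w.take i)).card = S.card := by
      refine Finset.card_image_of_injOn fun a ha b hb e => ?_
      by_contra hab
      exact hmin a ha b hb hab _ (by rw [List.length_take]; have := i.2; omega) e
    omega
  · intro i
    rw [Finset.mem_compl, not_not]
    exact mem_img.2 ⟨p, hp, rfl⟩
  · intro i
    rw [Finset.mem_compl, not_not]
    exact mem_img.2 ⟨q, hq, rfl⟩
  · intro i j hij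
    by_contra hne
    simp only [Finset.mem_compl, not_or, not_not] at hne
    obtain ⟨p', hp', e1⟩ := mem_img.1 hne.1
    obtain ⟨q', hq', e2⟩ := mem_img.1 hne.2
    have hj := j.2
    have hij' : (i : ℕ) < j := hij
    have hne' : p' ≠ q' := by
      rintro rfl
      exact hmin p hp q hq hpq (w.take j) (by rw [List.length_take]; omega) (e1.symm.trans e2)
    refine hmin p' hp' q' hq' hne' (w.take i ++ w.drop j) ?_ ?_
    · rw [List.length_append, List.length_take, List.length_drop]; omega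
    · rw [act_append, act_append, e1, e2, ← act_append, ← act_append, List.take_append_drop, e]

end Pool.Agent.MP_aef39a_lc.H46
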