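import Mathlib

/-!
The numerical part: sums of the costs and the optimisation giving `7/48`.
-/

namespace Pool.Agent.MP_aef39a_lc.H46

/-- The Frankl-Pin cost of compressing a `k`-set of an `n`-state automaton. -/
def fp (n k : ℕ) : ℕ := (n - k + 1) * (n - k + 2) / 2

theorem fp_le (n k : ℕ) (h1 : 1 ≤ k) (h2 : k ≤ n) :
    (fp n k : ℝ) ≤ (((n : ℝ) - k + 1) ^ 3 - ((n : ℝ) - k) ^ 3) / 6 + n := by
  obtain ⟨x, rfl⟩ := Nat.exists_eq_add_of_le h2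
  have h3 : (fp (k + x) k : ℝ) ≤ ((x : ℝ) + 1) * (x + 2) / 2 := by
    unfold fp
    rw [Nat.add_sub_cancel_left]
    refine Nat.cast_div_le.trans ?_
    push_cast
    exact le_rfl
  have h4 : (1 : ℝ) ≤ k := by exact_mod_cast h1
  have h5 : (0 : ℝ) ≤ x := Nat.cast_nonneg _
  push_cast
  nlinarith

theorem fp_le_sq (n k : ℕ) (h1 : 1 ≤ k) (h2 : k ≤ n) : fp n k ≤ n ^ 2 := by
  obtain ⟨x, rfl⟩ := Nat.exists_eq_add_of_le h2
  unfold fp
  rw [Nat.add_sub_cancel_left]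
  refine Nat.div_le_of_le_mul ?_
  nlinarith

theorem sum_fp (n k₁ k₂ : ℕ) (h1 : k₁ ≤ k₂) (h2 : k₂ ≤ n) :
    ∑ k ∈ Finset.Ioc k₁ k₂, (fp n k : ℝ) ≤
      (((n : ℝ) - k₁) ^ 3 - ((n : ℝ) - k₂) ^ 3) / 6 + n * ((k₂ : ℝ) - k₁) := by
  induction k₂, h1 using Nat.le_induction with
  | base => simp
  | succ k hk ih =>
    rw [Finset.sum_Ioc_succ_top hk]
    have h3 := ih (by omega)
    have h4 := fp_le n (k + 1) (by omega) h2
    push_cast at h4 ⊢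
    have e : (n : ℝ) - (k + 1) + 1 = n - k := by ring
    rw [e] at h4
    linarith

/-- The cost function of the greedy phase. -/
def cost (n r e T k : ℕ) : ℕ := if r + e ≤ 2 * k then min (fp n k) T else fp n k

theorem cost_le (n r e T k : ℕ) : cost n r e T k ≤ fp n k := by
  unfold cost
  split_ifs
  · exact min_le_left _ _
  · exact le_rfl

theorem sum_mid (n r e T k₀ k₂ : ℕ) (h2 : k₂ ≤ n) (h3 : r ≤ 2 * k₀ + 3) :
    ∑ k ∈ Finset.Ioc k₀ k₂, cost n r e T k ≤ (k₂ - k₀) * T + (e + 2) * n ^ 2 := by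
  have h4 : ∑ k ∈ Finset.Ioc k₀ k₂, cost n r e T k ≤
      ∑ k ∈ Finset.Ioc k₀ k₂, (T + if k ∈ Finset.Ioc k₀ (k₀ + (e + 2)) then n ^ 2 else 0) := by
    refine Finset.sum_le_sum fun k hk => ?_
    rw [Finset.mem_Ioc] at hk
    by_cases hk' : k ∈ Finset.Ioc k₀ (k₀ + (e + 2))
    · rw [if_pos hk']
      have := (cost_le n r e T k).trans (fp_le_sq n k (by omega) (by omega))
      omega
    · rw [if_neg hk']
      rw [Finset.mem_Ioc] at hk'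
      unfold cost
      rw [if_pos (by omega)]
      exact min_le_right _ _
  rw [Finset.sum_add_distrib, Finset.sum_const, Nat.card_Ioc, smul_eq_mul, Finset.sum_ite_mem,
    Finset.sum_const, smul_eq_mul] at h4
  have h5 : (Finset.Ioc k₀ k₂ ∩ Finset.Ioc k₀ (k₀ + (e + 2))).card ≤ e + 2 := by
    refine (Finset.card_le_card Finset.inter_subset_right).trans ?_
    rw [Nat.card_Ioc]
    omega
  exact h4.trans (Nat.add_le_add_left (Nat.mul_le_mul_right _ h5) _)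

theorem sum_cost (n r e T L k₀ k₂ K : ℕ) (h1 : k₀ ≤ k₂) (h2 : k₂ ≤ K) (h3 : K ≤ n)
    (h4 : r ≤ 2 * k₀ + 3) :
    ((∑ k ∈ Finset.Ioc 0 K, (L + cost n r e T k) : ℕ) : ℝ) ≤
      n * L + ((n : ℝ) ^ 3 - ((n : ℝ) - k₀) ^ 3) / 6 + ((k₂ : ℝ) - k₀) * T + (e + 2) * n ^ 2 +
        (((n : ℝ) - k₂) ^ 3 - ((n : ℝ) - K) ^ 3) / 6 + n ^ 2 := by
  rw [Finset.sum_add_distrib, Finset.sum_const, Nat.card_Ioc, smul_eq_mul,
    ← Finset.sum_Ioc_consecutive _ (Nat.zero_le k₂) h2,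
    ← Finset.sum_Ioc_consecutive _ (Nat.zero_le k₀) h1]
  have a1 : ((∑ k ∈ Finset.Ioc 0 k₀, cost n r e T k : ℕ) : ℝ) ≤
      ∑ k ∈ Finset.Ioc 0 k₀, (fp n k : ℝ) := by
    push_cast
    exact Finset.sum_le_sum fun k _ => by exact_mod_cast cost_le n r e T k
  have a3 : ((∑ k ∈ Finset.Ioc k₂ K, cost n r e T k : ℕ) : ℝ) ≤
      ∑ k ∈ Finset.Ioc k₂ K, (fp n k : ℝ) := by
    push_cast
    exact Finset.sum_le_sum fun k _ => by exact_mod_cast cost_le n r e T k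
  have a2 : ((∑ k ∈ Finset.Ioc k₀ k₂, cost n r e T k : ℕ) : ℝ) ≤
      ((k₂ : ℝ) - k₀) * T + (e + 2) * n ^ 2 := by
    have := sum_mid n r e T k₀ k₂ (h2.trans h3) h4
    rw [← Nat.cast_sub h1]
    exact_mod_cast this
  have b1 := sum_fp n 0 k₀ (Nat.zero_le _) (by omega)
  have b3 := sum_fp n k₂ K h2 h3
  have c1 : (k₀ : ℝ) ≤ k₂ := by exact_mod_cast h1
  have c3 : (K : ℝ) ≤ n := by exact_mod_cast h3
  have c4 : (0 : ℝ) ≤ n := Nat.cast_nonneg _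
  have c5 : (0 : ℝ) ≤ L := Nat.cast_nonneg _
  have d1 : (K : ℝ) * L ≤ n * L := mul_le_mul_of_nonneg_right c3 c5
  have d2 : (n : ℝ) * (k₀ - k₂ + K) ≤ n * n := mul_le_mul_of_nonneg_left (by linarith) c4
  rw [Nat.cast_add, Nat.cast_add, Nat.cast_add, Nat.cast_mul, Nat.sub_zero]
  simp only [Nat.cast_zero, sub_zero] at b1
  nlinarith

theorem poly (x : ℝ) (hx : 0 ≤ x) :
    ((1 - x) / 2 - x ^ 2) * x ^ 2 + (1 - ((1 + x) / 2) ^ 3) / 6 ≤ 7 / 48 := by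
  have h : 0 ≤ x ^ 3 + 25 / 48 * x ^ 2 - 21 / 48 * x + 1 / 16 := by
    nlinarith [mul_nonneg hx (sq_nonneg (x - 247 / 1000)), sq_nonneg (x - 247 / 1000)]
  nlinarith [mul_nonneg hx h]

theorem opt (x y : ℝ) (hx : 0 ≤ x) (hy : 0 ≤ y) (hx1 : x ≤ 1) :
    max 0 ((1 - x) / 2 - y) * x ^ 2 + (1 - ((1 + x) / 2) ^ 3) / 6 ≤ 7 / 48 ∨
      ∃ z : ℝ, 1 / 2 ≤ z ∧ z ≤ (1 + x) / 2 ∧ max 0 (1 / 2 - x - y) * y +
        ((1 + x) / 2 - z) * x ^ 2 + (1 - ((1 + x) / 2) ^ 3) / 6 + (z ^ 3 - (1 / 2) ^ 3) / 6 ≤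
          7 / 48 := by
  by_cases h1 : 1 / 2 ≤ x
  · refine Or.inr ⟨(1 + x) / 2, by linarith, le_rfl, ?_⟩
    rw [max_eq_left (by linarith)]
    apply le_of_eq
    ring
  push Not at h1
  have hp := poly x hx
  by_cases h2 : x ^ 2 ≤ y
  · left
    have h3 : max 0 ((1 - x) / 2 - y) ≤ (1 - x) / 2 - x ^ 2 :=
      max_le (by nlinarith) (by linarith)
    have h4 := mul_le_mul_of_nonneg_right h3 (sq_nonneg x)
    linarith
  push Not at h2
  right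
  have hq : max 0 (1 / 2 - x - y) * y ≤ (1 / 2 - x) ^ 2 / 4 := by
    rcases le_total 0 (1 / 2 - x - y) with h | h
    · rw [max_eq_right h]
      nlinarith [sq_nonneg (1 / 2 - x - 2 * y)]
    · rw [max_eq_left h, zero_mul]
      positivity
  by_cases h3 : x ≤ 3 / 10
  · refine ⟨1 / 2, le_rfl, by linarith, ?_⟩
    have h4 : x ^ 2 ≤ 9 / 100 := by nlinarith
    rw [max_eq_right (by linarith)]
    have h5 : 0 ≤ (x ^ 2 - y) * (1 / 2 - x - x ^ 2 - y) :=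
      mul_nonneg (by linarith) (by linarith)
    nlinarith
  push Not at h3
  by_cases h4 : x ≤ 5 / 14
  · refine ⟨1 / 2, le_rfl, by linarith, ?_⟩
    have h5 : 0 ≤ (x - 3 / 10) * (5 / 14 - x) := mul_nonneg (by linarith) (by linarith)
    nlinarith [mul_nonneg hx h5]
  push Not at h4
  refine ⟨7 / 5 * x, by linarith, by linarith, ?_⟩
  have h5 : 0 ≤ (x - 5 / 14) * (1 / 2 - x) := mul_nonneg (by linarith) (by linarith)
  have h6 : 0 ≤ 1 - x := by linarith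
  nlinarith [mul_nonneg h6 h5]

/-- The homogeneous form of `opt`. -/
theorem opt' (n h j : ℝ) (hn : 0 < n) (hh : 0 ≤ h) (hj : 0 ≤ j) (hhn : h ≤ n) :
    max 0 ((n - h) / 2 - j) * h ^ 2 + (n ^ 3 - ((n + h) / 2) ^ 3) / 6 ≤ 7 / 48 * n ^ 3 ∨
      ∃ z : ℝ, n / 2 ≤ z ∧ z ≤ (n + h) / 2 ∧ max 0 (n / 2 - h - j) * j * n +
        ((n + h) / 2 - z) * h ^ 2 + (n ^ 3 - ((n + h) / 2) ^ 3) / 6 + (z ^ 3 - (n / 2) ^ 3) / 6 ≤
          7 / 48 * n ^ 3 := by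
  obtain ⟨x, rfl⟩ : ∃ x, h = n * x := ⟨h / n, by field_simp⟩
  obtain ⟨y, rfl⟩ : ∃ y, j = n * y := ⟨j / n, by field_simp⟩
  have hx : 0 ≤ x := nonneg_of_mul_nonneg_right hh hn
  have hy : 0 ≤ y := nonneg_of_mul_nonneg_right hj hn
  have hx1 : x ≤ 1 := by nlinarith
  have h3 : 0 ≤ n ^ 3 := by positivity
  have hm : ∀ s : ℝ, max 0 (n * s) = n * max 0 s := fun s => by
    rw [mul_max_of_nonneg _ _ hn.le, mul_zero]
  rcases opt x y hx hy hx1 with h | ⟨z, h1, h2, h⟩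
  · left
    have e : (n - n * x) / 2 - n * y = n * ((1 - x) / 2 - y) := by ring
    rw [e, hm]
    have := mul_le_mul_of_nonneg_left h h3
    linarith
  · refine Or.inr ⟨n * z, by nlinarith, by nlinarith, ?_⟩
    have e : n / 2 - n * x - n * y = n * (1 / 2 - x - y) := by ring
    rw [e, hm]
    have := mul_le_mul_of_nonneg_left h h3
    linarith

end Pool.Agent.MP_aef39a_lc.H46
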