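import Pool.Agent.MP_aef39a_lc.H46.Base

/-!
Choice of the scale, the greedy phase (suffixes) and the avoiding phase (prefixes).
-/

namespace Pool.Agent.MP_aef39a_lc.H46

open Pool.Agent.MP_aef39a_lc

variable {Q A : Type} [Fintype Q] [DecidableEq Q] (δ : Q → A → Q)

/-- A word of linear length whose rank hardly drops along words of comparable length. -/
theorem scale (ψ m : ℕ) (hm : Fintype.card Q < m * ψ) :
    ∃ w₀ : List A, w₀.length ≤ 2 ^ m * Fintype.card Q ∧ ∀ v : List A,
      v.length ≤ w₀.length + Fintype.card Q → rk δ w₀ ≤ rk δ (w₀ ++ v) + ψ := by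
  by_contra hne
  push Not at hne
  have key : ∀ i, i ≤ m → ∃ w : List A, w.length + Fintype.card Q ≤ 2 ^ i * Fintype.card Q ∧
      rk δ w + i * ψ ≤ Fintype.card Q := by
    intro i
    induction i with
    | zero => intro _; exact ⟨[], by simp, by simpa using rk_le δ []⟩
    | succ i ih =>
      intro hi
      obtain ⟨w, h1, h2⟩ := ih (by omega)
      have h3 : 2 ^ i * Fintype.card Q ≤ 2 ^ m * Fintype.card Q :=
        Nat.mul_le_mul_right _ (Nat.pow_le_pow_right (by norm_num) (by omega))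
      obtain ⟨v, hv, hr⟩ := hne w (by omega)
      refine ⟨w ++ v, ?_, ?_⟩
      · rw [List.length_append, pow_succ, mul_comm (2 ^ i) 2, mul_assoc]; omega
      · rw [add_mul, one_mul]; omega
  obtain ⟨w, _, h2⟩ := key m le_rfl
  omega

/-- The greedy phase: reapply `w₀`, then merge a pair. -/
theorem greedy (w₀ : List A) (c : ℕ → ℕ)
    (hc : ∀ S : Finset Q, S ⊆ img δ Finset.univ w₀ → 2 ≤ S.card →
      ∃ p ∈ S, ∃ q ∈ S, p ≠ q ∧ Near δ (c S.card) p q) (K : ℕ) :
    ∀ u : List A, rk δ u ≤ K → ∃ w : List A, IsReset δ w ∧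
      w.length ≤ u.length + ∑ k ∈ Finset.Ioc 0 K, (w₀.length + c k) := by
  induction K with
  | zero => intro u hu; exact ⟨u, reset_of_rk δ (by omega), by simp⟩
  | succ K ih =>
    intro u hu
    rw [Finset.sum_Ioc_succ_top (Nat.zero_le K)]
    by_cases h1 : rk δ u ≤ 1
    · exact ⟨u, reset_of_rk δ h1, by omega⟩
    by_cases h2 : rk δ (u ++ w₀) ≤ K
    · obtain ⟨w, hw, hl⟩ := ih _ h2
      rw [List.length_append] at hl
      exact ⟨w, hw, by omega⟩
    have h3 := rk_append_le δ u w₀
    have hsub : img δ Finset.univ (u ++ w₀) ⊆ img δ Finset.univ w₀ := by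
      rw [img_append]
      exact img_mono δ (Finset.subset_univ _) _
    have h4 : (img δ Finset.univ (u ++ w₀)).card = K + 1 := by
      unfold rk at h2 h3 hu
      omega
    obtain ⟨p, hp, q, hq, hpq, v, hv, e⟩ := hc _ hsub (by omega)
    have h5 := card_img_lt δ hp hq hpq e
    rw [← img_append, h4] at h5
    obtain ⟨w, hw, hl⟩ := ih (u ++ w₀ ++ v) (by unfold rk; omega)
    rw [List.length_append, List.length_append] at hl
    rw [h4] at hv
    exact ⟨w, hw, by omega⟩

/-- A word `u₀` of rank at most `r - j` and length at most `L + j n` such that every state is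
avoided by a word of length at most `L + (j + 1) n`. -/
theorem avoiding (hs : ∃ w, IsReset δ w) (w₀ : List A) :
    ∃ (j : ℕ) (u₀ : List A), u₀.length ≤ w₀.length + j * Fintype.card Q ∧
      rk δ u₀ + j ≤ rk δ w₀ ∧ (rk δ u₀ ≤ 1 ∨ ∀ a : Q, ∃ z : List A,
        z.length ≤ w₀.length + (j + 1) * Fintype.card Q ∧ a ∉ img δ Finset.univ z) := by
  classical
  let P : ℕ → Prop := fun j => ∃ u₀ : List A, u₀.length ≤ w₀.length + j * Fintype.card Q ∧
    rk δ u₀ + j ≤ rk δ w₀
  have h0 : P 0 := ⟨w₀, by simp, by simp⟩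
  obtain ⟨u₀, h1, h2⟩ : P (Nat.findGreatest P (rk δ w₀)) :=
    Nat.findGreatest_spec (Nat.zero_le _) h0
  refine ⟨_, u₀, h1, h2, ?_⟩
  by_cases h3 : rk δ u₀ ≤ 1
  · exact Or.inl h3
  refine Or.inr fun a => ?_
  obtain ⟨w, hw, hne⟩ := avoid δ hs (img δ Finset.univ u₀) (by unfold rk at h3; omega) a
  have hl : (u₀ ++ w).length ≤
      w₀.length + (Nat.findGreatest P (rk δ w₀) + 1) * Fintype.card Q := by
    rw [List.length_append, add_mul, one_mul]; omega
  refine ⟨u₀ ++ w, hl, fun ha => ?_⟩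
  have hnot : ¬ P (Nat.findGreatest P (rk δ w₀) + 1) :=
    Nat.findGreatest_is_greatest (Nat.lt_succ_self _) (by omega)
  refine hnot ⟨u₀ ++ w, hl, ?_⟩
  rw [img_append] at ha
  obtain ⟨p, hp, e⟩ := mem_img.1 ha
  have hpos : 0 < ((img δ Finset.univ u₀).filter fun p => act δ p w = a).card :=
    Finset.card_pos.2 ⟨p, Finset.mem_filter.2 ⟨hp, e⟩⟩
  obtain ⟨x, hx, y, hy, hxy⟩ := Finset.one_lt_card.1
    (show 1 < ((img δ Finset.univ u₀).filter fun p => act δ p w = a).card by omega)
  rw [Finset.mem_filter] at hx hy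
  have h5 := card_img_lt δ hx.1 hy.1 hxy (hx.2.trans hy.2.symm)
  rw [← img_append] at h5
  unfold rk at h2 ⊢
  omega

/-- A word of rank above one half has a state alone in its kernel class. -/
theorem lonely (u : List A) (h : Fintype.card Q < 2 * rk δ u) :
    ∃ a : Q, ∀ p, act δ p u = act δ a u → p = a := by
  by_contra hne
  push Not at hne
  have h1 : (Finset.univ : Finset Q).card = ∑ y ∈ img δ Finset.univ u,
      (Finset.univ.filter fun p => act δ p u = y).card :=
    Finset.card_eq_sum_card_fiberwise fun p _ => mem_img.2 ⟨p, Finset.mem_univ _, rfl⟩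
  have h2 : (img δ Finset.univ u).card * 2 ≤ ∑ y ∈ img δ Finset.univ u,
      (Finset.univ.filter fun p => act δ p u = y).card := by
    rw [← smul_eq_mul, ← Finset.sum_const]
    refine Finset.sum_le_sum fun y hy => ?_
    obtain ⟨a, _, rfl⟩ := mem_img.1 hy
    obtain ⟨p, e, hp⟩ := hne a
    exact Finset.one_lt_card.2 ⟨p, by simpa using e, a, by simp, hp⟩
  rw [Finset.card_univ] at h1
  unfold rk at h
  omega

/-- The avoiding phase: down to rank one half by prefixes. -/
theorem prefixes (α : ℕ) (hα : ∀ a : Q, ∃ z : List A, z.length ≤ α ∧ a ∉ img δ Finset.univ z)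
    (K : ℕ) : ∀ u : List A, rk δ u ≤ K → ∃ w : List A, rk δ w ≤ Fintype.card Q / 2 ∧
      w.length ≤ u.length + (K - Fintype.card Q / 2) * α := by
  induction K with
  | zero => intro u hu; exact ⟨u, by omega, by omega⟩
  | succ K ih =>
    intro u hu
    by_cases h1 : rk δ u ≤ Fintype.card Q / 2
    · exact ⟨u, h1, by omega⟩
    obtain ⟨a, ha⟩ := lonely δ u (by omega)
    obtain ⟨z, hz, haz⟩ := hα a
    have h2 : img δ Finset.univ (z ++ u) ⊆ (img δ Finset.univ u).erase (act δ a u) := by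
      intro y hy
      rw [img_append] at hy
      obtain ⟨p, hp, rfl⟩ := mem_img.1 hy
      exact Finset.mem_erase.2 ⟨fun e => haz (ha p e ▸ hp), mem_img.2 ⟨p, Finset.mem_univ _, rfl⟩⟩
    have h3 := Finset.card_le_card h2
    rw [Finset.card_erase_of_mem (mem_img.2 ⟨a, Finset.mem_univ _, rfl⟩)] at h3
    obtain ⟨w, hw, hl⟩ := ih (z ++ u) (by unfold rk at hu ⊢; omega)
    refine ⟨w, hw, ?_⟩
    rw [List.length_append] at hl
    have e : K + 1 - Fintype.card Q / 2 = K - Fintype.card Q / 2 + 1 := by omega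
    rw [e, add_mul, one_mul]
    omega

end Pool.Agent.MP_aef39a_lc.H46
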