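import Pool.Agent.MP_aef39a_lc.H46.Base

/-!
The graph of quickly mergeable pairs is almost regular on the image of a word of almost
locally minimal rank; consequences for large subsets of that image.
-/

namespace Pool.Agent.MP_aef39a_lc.H46

open Pool.Agent.MP_aef39a_lc

variable {Q A : Type}

open Classical in
/-- The elements of `X` other than `z` that can be merged with `z` in `t` steps. -/
noncomputable def nb (δ : Q → A → Q) (X : Finset Q) (t : ℕ) (z : Q) : Finset Q :=
  X.filter fun y => y ≠ z ∧ Near δ t z y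

theorem mem_nb {δ : Q → A → Q} {X : Finset Q} {t : ℕ} {z y : Q} :
    y ∈ nb δ X t z ↔ y ∈ X ∧ y ≠ z ∧ Near δ t z y := by
  simp [nb]

/-- The largest degree inside `X`. -/
noncomputable def dm (δ : Q → A → Q) (X : Finset Q) (t : ℕ) : ℕ :=
  X.sup fun z => (nb δ X t z).card

theorem le_dm (δ : Q → A → Q) {X : Finset Q} (t : ℕ) {z : Q} (hz : z ∈ X) :
    (nb δ X t z).card ≤ dm δ X t := Finset.le_sup (f := fun z => (nb δ X t z).card) hz

theorem dm_mono (δ : Q → A → Q) (X : Finset Q) {s t : ℕ} (h : s ≤ t) : dm δ X s ≤ dm δ X t := by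
  refine Finset.sup_le fun z hz => le_trans (Finset.card_le_card fun y hy => ?_) (le_dm δ t hz)
  rw [mem_nb] at hy ⊢
  exact ⟨hy.1, hy.2.1, hy.2.2.mono h⟩

theorem dm_le (δ : Q → A → Q) (X : Finset Q) (t : ℕ) : dm δ X t ≤ X.card :=
  Finset.sup_le fun _ _ => Finset.card_le_card fun _ hy => (mem_nb.1 hy).1

/-- Pulling neighbours back along a word. -/
theorem pull [DecidableEq Q] (δ : Q → A → Q) (J X : Finset Q) (t : ℕ) (z : Q) (v : List A) :
    (nb δ X t (act δ z v)).card ≤ (nb δ J (t + v.length) z).card + (X \ img δ J v).card := by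
  have h : nb δ X t (act δ z v) ⊆ img δ (nb δ J (t + v.length) z) v ∪ (X \ img δ J v) := by
    intro y hy
    rw [mem_nb] at hy
    rw [Finset.mem_union]
    by_cases hJ : y ∈ img δ J v
    · obtain ⟨p, hp, rfl⟩ := mem_img.1 hJ
      refine Or.inl (mem_img.2 ⟨p, mem_nb.2 ⟨hp, ?_, hy.2.2.pull v⟩, rfl⟩)
      rintro rfl
      exact hy.2.1 rfl
    · exact Or.inr (Finset.mem_sdiff.2 ⟨hy.1, hJ⟩)
  have h1 := (Finset.card_le_card h).trans (Finset.card_union_le _ _)
  have h2 := card_img_le δ (nb δ J (t + v.length) z) v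
  omega

theorem nb_mono (δ : Q → A → Q) (X : Finset Q) {s t : ℕ} (h : s ≤ t) (z : Q) :
    (nb δ X s z).card ≤ (nb δ X t z).card :=
  Finset.card_le_card fun y hy => by
    rw [mem_nb] at hy ⊢
    exact ⟨hy.1, hy.2.1, hy.2.2.mono h⟩

/-- Every level below the level of some pair contains a pair. -/
theorem levels (δ : Q → A → Q) (hs : ∃ w, IsReset δ w) {t : ℕ} {p q : Q} (h : ¬ Near δ t p q)
    (i : ℕ) (hi : i ≤ t) : ∃ x y, Near δ (i + 1) x y ∧ ¬ Near δ i x y := by
  classical
  obtain ⟨w, hw⟩ := hs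
  have hex : ∃ s, Near δ s p q := ⟨w.length, w, le_rfl, hw p q⟩
  have hlt : t < Nat.find hex := by
    by_contra hle
    exact h ((Nat.find_spec hex).mono (by omega))
  obtain ⟨u, hu, e⟩ := Nat.find_spec hex
  refine ⟨act δ p (u.take (Nat.find hex - (i + 1))), act δ q (u.take (Nat.find hex - (i + 1))),
    ⟨u.drop (Nat.find hex - (i + 1)), by rw [List.length_drop]; omega, ?_⟩, fun hn => ?_⟩
  · rw [← act_append, ← act_append, List.take_append_drop, e]
  · refine Nat.find_min hex (m := i + (u.take (Nat.find hex - (i + 1))).length) ?_ (hn.pull _)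
    rw [List.length_take]
    omega

section
variable [Fintype Q] [DecidableEq Q] (δ : Q → A → Q) (hsc : StronglyConnected δ) (w₀ : List A)
  (ψ : ℕ) (hψ : ∀ v : List A, v.length ≤ w₀.length + Fintype.card Q →
    rk δ w₀ ≤ rk δ (w₀ ++ v) + ψ)
include hsc hψ

/-- Almost regularity. -/
theorem reg (t : ℕ) {z : Q} (hz : z ∈ img δ Finset.univ w₀) (z' : Q) :
    (nb δ (img δ Finset.univ w₀) t z).card ≤
      (nb δ (img δ Finset.univ w₀) (t + (w₀.length + Fintype.card Q)) z').card + ψ := by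
  obtain ⟨p, _, rfl⟩ := mem_img.1 hz
  obtain ⟨w, hw, e⟩ := reach δ (fun x => x = p) z' (hsc z' p)
  have hl : (w ++ w₀).length ≤ w₀.length + Fintype.card Q := by
    rw [List.length_append]; omega
  have h1 := pull δ (img δ Finset.univ w₀) (img δ Finset.univ w₀) t z' (w ++ w₀)
  rw [act_append, e] at h1
  have h2 := hψ _ hl
  have hsub : img δ (img δ Finset.univ w₀) (w ++ w₀) ⊆ img δ Finset.univ w₀ := by
    rw [img_append]
    exact img_mono δ (Finset.subset_univ _) _
  rw [Finset.card_sdiff_of_subset hsub] at h1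
  unfold rk at h2
  rw [img_append] at h2
  have h3 := nb_mono δ (img δ Finset.univ w₀) (Nat.add_le_add_left hl t) z'
  omega

/-- Degrees in the whole state set. -/
theorem degQ [Nonempty Q] (t : ℕ) (z : Q) :
    (nb δ Finset.univ t z).card ≤ dm δ (img δ Finset.univ w₀) (t + Fintype.card Q) +
      (Fintype.card Q - rk δ w₀) + ψ := by
  obtain ⟨p⟩ := ‹Nonempty Q›
  have hz' : act δ p w₀ ∈ img δ Finset.univ w₀ := mem_img.2 ⟨p, Finset.mem_univ _, rfl⟩
  obtain ⟨w, hw, e⟩ := reach δ (fun x => x = z) (act δ p w₀) (hsc _ z)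
  have h1 := pull δ (img δ Finset.univ w₀) Finset.univ t (act δ p w₀) w
  rw [e, Finset.card_sdiff_of_subset (Finset.subset_univ _), Finset.card_univ] at h1
  have h2 := hψ w (by omega)
  have h5 := rk_le δ w₀
  unfold rk at h2 h5 ⊢
  rw [img_append] at h2
  have h3 := nb_mono δ (img δ Finset.univ w₀) (Nat.add_le_add_left hw t) (act δ p w₀)
  have h4 := le_dm δ (t + Fintype.card Q) hz'
  omega

/-- Double counting between a set without near pairs and its complement. -/
theorem half (t : ℕ) {S : Finset Q} (hS : S ⊆ img δ Finset.univ w₀)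
    (hfar : ∀ p ∈ S, ∀ q ∈ S, p ≠ q → ¬ Near δ (t + (w₀.length + Fintype.card Q)) p q) :
    S.card * dm δ (img δ Finset.univ w₀) t ≤
      (rk δ w₀ - S.card) * dm δ (img δ Finset.univ w₀) (t + (w₀.length + Fintype.card Q)) +
        S.card * ψ := by
  classical
  set J := img δ Finset.univ w₀ with hJ
  set s := t + (w₀.length + Fintype.card Q) with hs
  have h1 : ∀ x ∈ S, dm δ J t ≤ (nb δ J s x).card + ψ := fun x _ =>
    Finset.sup_le fun z hz => reg δ hsc w₀ ψ hψ t hz x
  have h2 : S.card * dm δ J t ≤ ∑ x ∈ S, ((nb δ J s x).card + ψ) := by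
    rw [← smul_eq_mul, ← Finset.sum_const]
    exact Finset.sum_le_sum h1
  rw [Finset.sum_add_distrib, Finset.sum_const, smul_eq_mul] at h2
  have h3 : ∑ x ∈ S, (nb δ J s x).card =
      ∑ y ∈ J \ S, (S.filter fun x => Near δ s x y).card := by
    refine Eq.trans ?_ (Finset.sum_card_bipartiteAbove_eq_sum_card_bipartiteBelow
      (s := S) (t := J \ S) (fun x y => Near δ s x y))
    refine Finset.sum_congr rfl fun x hx => congrArg _ ?_
    ext y
    rw [mem_nb, Finset.mem_bipartiteAbove, Finset.mem_sdiff]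
    constructor
    · rintro ⟨a, b, c⟩
      exact ⟨⟨a, fun hy => hfar x hx y hy b.symm c⟩, c⟩
    · rintro ⟨⟨a, b⟩, c⟩
      exact ⟨a, fun e => b (e ▸ hx), c⟩
  have h4 : ∑ y ∈ J \ S, (S.filter fun x => Near δ s x y).card ≤ (J \ S).card * dm δ J s := by
    rw [← smul_eq_mul, ← Finset.sum_const]
    refine Finset.sum_le_sum fun y hy => ?_
    rw [Finset.mem_sdiff] at hy
    refine le_trans (Finset.card_le_card fun x hx => ?_) (le_dm δ s hy.1)
    rw [Finset.mem_filter] at hx
    exact mem_nb.2 ⟨hS hx.1, fun e => hy.2 (e ▸ hx.1), hx.2.symm⟩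
  rw [Finset.card_sdiff_of_subset hS] at h4
  unfold rk
  rw [← hJ]
  omega

/-- Once the degree is at least `D`, a set above one half has a near pair. -/
theorem cheap (t D e M : ℕ) (hD : D ≤ dm δ (img δ Finset.univ w₀) t)
    (hp : 2 * Fintype.card Q * ψ ≤ e * D) (hM : Fintype.card Q < M * ψ) {S : Finset Q}
    (hS : S ⊆ img δ Finset.univ w₀) (hk : rk δ w₀ + e ≤ 2 * S.card) (h0 : 0 < S.card) :
    ∃ p ∈ S, ∃ q ∈ S, p ≠ q ∧ Near δ (t + M * (w₀.length + Fintype.card Q)) p q := by
  by_contra hne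
  push Not at hne
  set J := img δ Finset.univ w₀ with hJ
  set l := w₀.length + Fintype.card Q with hl
  have hkn : S.card ≤ Fintype.card Q := Finset.card_le_univ _
  have key : ∀ i, i ≤ M → D + i * ψ ≤ dm δ J (t + i * l) := by
    intro i
    induction i with
    | zero => intro _; simpa using hD
    | succ i ih =>
      intro hi
      have h1 := ih (by omega)
      have e1 : t + (i + 1) * l = t + i * l + l := by ring
      have hle : t + i * l + l ≤ t + M * l := by
        rw [← e1]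
        exact Nat.add_le_add_left (Nat.mul_le_mul_right _ hi) _
      have h2 := half δ hsc w₀ ψ hψ (t + i * l) hS
        fun p hp q hq hpq hn => hne p hp q hq hpq (hn.mono hle)
      have h3 := dm_mono δ J (Nat.le_add_right (t + i * l) l)
      rw [e1]
      rw [← hJ, ← hl] at h2
      by_contra hlt
      have hrk : S.card ≤ rk δ w₀ := Finset.card_le_card hS
      have h4 : rk δ w₀ - S.card + e ≤ S.card := by omega
      generalize dm δ J (t + i * l) = d₀ at *
      generalize dm δ J (t + i * l + l) = d₁ at *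
      generalize rk δ w₀ - S.card = g at *
      generalize S.card = k at *
      generalize Fintype.card Q = n at *
      have h5 : d₁ + 1 ≤ d₀ + ψ := by
        have : (i + 1) * ψ = i * ψ + ψ := by ring
        omega
      have h6 : (g + e) * d₁ ≤ k * d₁ := Nat.mul_le_mul_right _ h4
      have h7 : e * D ≤ e * d₁ := Nat.mul_le_mul_left _ (by omega)
      have h8 : k * (d₁ + 1) ≤ k * (d₀ + ψ) := Nat.mul_le_mul_left _ h5
      have h9 : k * ψ ≤ n * ψ := Nat.mul_le_mul_right _ hkn
      nlinarith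
  have h1 := key M le_rfl
  have h2 := dm_le δ J (t + M * l)
  have h3 : J.card ≤ Fintype.card Q := Finset.card_le_univ _
  omega

/-- Counting the levels below a level of small degree. -/
theorem count [Nonempty Q] (hs : ∃ w, IsReset δ w) (s D : ℕ)
    (hD : dm δ (img δ Finset.univ w₀) (s + Fintype.card Q) ≤ D) {p q : Q}
    (h : ¬ Near δ s p q) :
    s ≤ (Fintype.card Q - rk δ w₀) * (D + (Fintype.card Q - rk δ w₀) + ψ) + Fintype.card Q * D := by
  classical
  set J := img δ Finset.univ w₀ with hJ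
  have hex : ∀ i : Fin s, ∃ x y, Near δ (i + 1) x y ∧ ¬ Near δ i x y ∧ (x ∈ J → y ∈ J) := by
    intro i
    obtain ⟨x, y, h1, h2⟩ := levels δ hs h i i.2.le
    by_cases hy : y ∈ J
    · exact ⟨x, y, h1, h2, fun _ => hy⟩
    · exact ⟨y, x, h1.symm, fun h => h2 h.symm, fun h => absurd h hy⟩
  choose x y h1 h2 h3 using hex
  have hne : ∀ i, y i ≠ x i := fun i e => h2 i ⟨[], by simp, by rw [e]⟩
  let P : Finset (Σ _ : Q, Q) :=
    (Jᶜ.sigma fun z => nb δ Finset.univ s z) ∪ (J.sigma fun z => nb δ J s z)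
  have hmap : ∀ i ∈ (Finset.univ : Finset (Fin s)), (⟨x i, y i⟩ : Σ _ : Q, Q) ∈ P := by
    intro i _
    have hn : Near δ s (x i) (y i) := (h1 i).mono i.2
    rw [Finset.mem_union, Finset.mem_sigma, Finset.mem_sigma]
    by_cases hx : x i ∈ J
    · exact Or.inr ⟨hx, mem_nb.2 ⟨h3 i hx, hne i, hn⟩⟩
    · exact Or.inl ⟨Finset.mem_compl.2 hx, mem_nb.2 ⟨Finset.mem_univ _, hne i, hn⟩⟩
  have hinj : Set.InjOn (fun i : Fin s => (⟨x i, y i⟩ : Σ _ : Q, Q))
      (Finset.univ : Finset (Fin s)) := by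
    intro i _ j _ e
    have ex : x i = x j := congrArg Sigma.fst e
    have ey : y i = y j := congrArg (fun z : (Σ _ : Q, Q) => z.2) e
    by_contra hij
    rcases lt_or_gt_of_ne (fun e => hij (Fin.ext e)) with hlt | hlt
    · exact h2 j (ex ▸ ey ▸ (h1 i).mono hlt)
    · exact h2 i (ex ▸ ey ▸ (h1 j).mono hlt)
  have hc := Finset.card_le_card_of_injOn _ hmap hinj
  rw [Finset.card_univ, Fintype.card_fin] at hc
  have hP := Finset.card_union_le (Jᶜ.sigma fun z => nb δ Finset.univ s z)
    (J.sigma fun z => nb δ J s z)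
  rw [Finset.card_sigma, Finset.card_sigma] at hP
  have ha : ∑ z ∈ Jᶜ, (nb δ Finset.univ s z).card ≤
      Jᶜ.card * (D + (Fintype.card Q - rk δ w₀) + ψ) := by
    rw [← smul_eq_mul, ← Finset.sum_const]
    refine Finset.sum_le_sum fun z _ => ?_
    have := degQ δ hsc w₀ ψ hψ s z
    rw [← hJ] at this
    omega
  have hb : ∑ z ∈ J, (nb δ J s z).card ≤ J.card * D := by
    rw [← smul_eq_mul, ← Finset.sum_const]
    exact Finset.sum_le_sum fun z hz =>
      (le_dm δ s hz).trans ((dm_mono δ J (Nat.le_add_right _ _)).trans hD)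
  rw [Finset.card_compl] at ha
  have hc2 : J.card * D ≤ Fintype.card Q * D := Nat.mul_le_mul_right _ (Finset.card_le_univ _)
  have hr : J.card = rk δ w₀ := rfl
  rw [hr] at ha
  exact hc.trans (hP.trans (Nat.add_le_add ha (hb.trans hc2)))

/-- Subsets of the image above one half are compressed quickly. -/
theorem key [Nonempty Q] (hs : ∃ w, IsReset δ w) (D e M : ℕ)
    (hp : 2 * Fintype.card Q * ψ ≤ e * D) (hM : Fintype.card Q < M * ψ) {S : Finset Q}
    (hS : S ⊆ img δ Finset.univ w₀) (hk : rk δ w₀ + e ≤ 2 * S.card) (h2 : 2 ≤ S.card) :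
    ∃ p ∈ S, ∃ q ∈ S, p ≠ q ∧ Near δ
      ((Fintype.card Q - rk δ w₀) * (D + (Fintype.card Q - rk δ w₀) + ψ) + Fintype.card Q * D + 1 +
        Fintype.card Q + M * (w₀.length + Fintype.card Q)) p q := by
  set s := (Fintype.card Q - rk δ w₀) * (D + (Fintype.card Q - rk δ w₀) + ψ) +
    Fintype.card Q * D + 1 with hsdef
  by_cases hD : D ≤ dm δ (img δ Finset.univ w₀) (s + Fintype.card Q)
  · exact cheap δ hsc w₀ ψ hψ _ D e M hD hp hM hS hk (by omega)
  · obtain ⟨p, hp, q, hq, hpq⟩ := Finset.one_lt_card.1 h2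
    refine ⟨p, hp, q, hq, hpq, ?_⟩
    by_contra hn
    have := count δ hsc w₀ ψ hψ hs s D (by omega) (p := p) (q := q)
      fun h => hn (h.mono (by omega))
    omega

end

end Pool.Agent.MP_aef39a_lc.H46
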