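import Pool.Agent.MP_aef39a_lc.H46.Frankl
import Pool.Agent.MP_aef39a_lc.H46.Reg
import Pool.Agent.MP_aef39a_lc.H46.Phases
import Pool.Agent.MP_aef39a_lc.H46.Num

/-!
Reset words of length `(7/48 + ε) n ^ 3 + O(n ^ 2)`.
-/

namespace Pool.Agent.MP_aef39a_lc.H46

open Pool.Agent.MP_aef39a_lc

variable {Q A : Type}

/-- A crude cubic bound, used for small automata. -/
theorem crude [Fintype Q] (δ : Q → A → Q) (hs : ∃ w, IsReset δ w) :
    ∃ w : List A, IsReset δ w ∧ w.length ≤ Fintype.card Q * Fintype.card Q ^ 2 := by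
  classical
  obtain ⟨w, hw, hl⟩ := greedy δ [] (fp (Fintype.card Q))
    (fun S _ hS => frankl δ hs S hS) (Fintype.card Q) [] (rk_le δ [])
  refine ⟨w, hw, hl.trans ?_⟩
  have : ∑ k ∈ Finset.Ioc 0 (Fintype.card Q), (([] : List A).length + fp (Fintype.card Q) k) ≤
      ∑ _k ∈ Finset.Ioc 0 (Fintype.card Q), Fintype.card Q ^ 2 := by
    refine Finset.sum_le_sum fun k hk => ?_
    rw [Finset.mem_Ioc] at hk
    simpa using fp_le_sq _ k hk.1 hk.2
  simpa using this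

/-- The real arithmetic at the end. -/
theorem finish (n h N c L T e l k₀ k₂ K β γ z W : ℝ) (hn : 1 ≤ n) (hN : 0 < N) (hc : 0 ≤ c)
    (hL : L ≤ c * n) (hT : T ≤ h ^ 2 + 3 * n ^ 2 / N + c * n) (he : e ≤ n / N + 1)
    (hh : 0 ≤ h) (hhn : h ≤ n) (hl : l ≤ γ + c * n ^ 2) (hk₀ : k₀ ≤ (n - h) / 2)
    (hβ : k₂ - k₀ ≤ β + 2) (hβn : k₂ - k₀ ≤ n) (hβ0 : 0 ≤ k₂ - k₀)
    (hz : (n - k₂) ^ 3 - (n - K) ^ 3 ≤ z + 7 * n ^ 2)
    (hopt : γ + β * h ^ 2 + (n ^ 3 - ((n + h) / 2) ^ 3) / 6 + z / 6 ≤ 7 / 48 * n ^ 3)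
    (hW : W ≤ l + (n * L + (n ^ 3 - (n - k₀) ^ 3) / 6 + (k₂ - k₀) * T + (e + 2) * n ^ 2 +
        ((n - k₂) ^ 3 - (n - K) ^ 3) / 6 + n ^ 2)) :
    W ≤ (7 / 48 + 4 / N) * n ^ 3 + (3 * c + 10) * n ^ 2 := by
  have h1 : n * L ≤ c * n ^ 2 := by nlinarith
  have h2 : ((n + h) / 2) ^ 3 ≤ (n - k₀) ^ 3 :=
    pow_le_pow_left₀ (by linarith) (by linarith) 3
  have h3 : 0 ≤ 3 * n ^ 2 / N + c * n := by positivity
  have h4 : (k₂ - k₀) * T ≤ (k₂ - k₀) * (h ^ 2 + (3 * n ^ 2 / N + c * n)) :=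
    mul_le_mul_of_nonneg_left (by linarith) hβ0
  have h5 : (k₂ - k₀) * h ^ 2 ≤ (β + 2) * h ^ 2 := mul_le_mul_of_nonneg_right hβ (sq_nonneg h)
  have h6 : (k₂ - k₀) * (3 * n ^ 2 / N + c * n) ≤ n * (3 * n ^ 2 / N + c * n) :=
    mul_le_mul_of_nonneg_right hβn h3
  have h7 : h ^ 2 ≤ n ^ 2 := pow_le_pow_left₀ hh hhn 2
  have h8 : (e + 2) * n ^ 2 ≤ (n / N + 3) * n ^ 2 :=
    mul_le_mul_of_nonneg_right (by linarith) (sq_nonneg n)
  have h9 : 0 ≤ n ^ 2 := sq_nonneg n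
  have e1 : n * (3 * n ^ 2 / N + c * n) = 3 * (n ^ 3 / N) + c * n ^ 2 := by ring
  have e2 : (n / N + 3) * n ^ 2 = n ^ 3 / N + 3 * n ^ 2 := by ring
  have e3 : (7 / 48 + 4 / N) * n ^ 3 = 7 / 48 * n ^ 3 + 4 * (n ^ 3 / N) := by ring
  rw [e3]
  linarith

/-- The bound for large strongly connected automata. -/
theorem large [Fintype Q] [Nonempty Q] (δ : Q → A → Q) (hsc : StronglyConnected δ)
    (hs : ∃ w, IsReset δ w) (N : ℕ) (hN : 0 < N) (hn : 4 * N ^ 2 ≤ Fintype.card Q) :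
    ∃ w : List A, IsReset δ w ∧ (w.length : ℝ) ≤ (7 / 48 + 4 / (N : ℝ)) * Fintype.card Q ^ 3 +
      (3 * ((4 * N ^ 2 + 2) * (2 ^ (4 * N ^ 2) + 1) + 5 : ℝ) + 10) * Fintype.card Q ^ 2 := by
  classical
  set m := 4 * N ^ 2 with hm
  have hm0 : 0 < m := by positivity
  have hNm : N ≤ m := by nlinarith
  have hM : Fintype.card Q < m * (Fintype.card Q / m + 1) := Nat.lt_mul_div_succ _ hm0
  obtain ⟨w₀, hL, hψ⟩ := scale δ (Fintype.card Q / m + 1) m hM
  have hp : 2 * Fintype.card Q * (Fintype.card Q / m + 1) ≤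
      (Fintype.card Q / N + 1) * (Fintype.card Q / N + 1) := by
    have a1 : Fintype.card Q < N * (Fintype.card Q / N + 1) := Nat.lt_mul_div_succ _ hN
    have a2 : m * (Fintype.card Q / m) ≤ Fintype.card Q := Nat.mul_div_le _ _
    generalize Fintype.card Q / N + 1 = D at *
    generalize Fintype.card Q / m = g at *
    generalize Fintype.card Q = n at *
    refine Nat.le_of_mul_le_mul_left (c := m) ?_ hm0
    have a3 : n * n ≤ (N * D) * (N * D) := Nat.mul_le_mul a1.le a1.le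
    have a4 : n * (m * g) ≤ n * n := Nat.mul_le_mul_left _ a2
    have a5 : n * m ≤ n * n := Nat.mul_le_mul_left _ hn
    have a6 : m * (D * D) = 4 * ((N * D) * (N * D)) := by rw [hm]; ring
    have a7 : m * (2 * n * (g + 1)) = 2 * (n * (m * g)) + 2 * (n * m) := by ring
    omega
  have hkey := fun (S : Finset Q) hS hk h2 => key δ hsc w₀ _ hψ hs (Fintype.card Q / N + 1)
    (Fintype.card Q / N + 1) m hp hM (S := S) hS hk h2
  have hψD : Fintype.card Q / m + 1 ≤ Fintype.card Q / N + 1 :=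
    Nat.add_le_add_right (Nat.div_le_div_left hNm hN) 1
  have hD : ((Fintype.card Q / N + 1 : ℕ) : ℝ) ≤ Fintype.card Q / (N : ℝ) + 1 := by
    push_cast
    exact add_le_add_left Nat.cast_div_le 1
  have hr := rk_le δ w₀
  have hn1 : 1 ≤ Fintype.card Q := Fintype.card_pos
  obtain ⟨j, u₀, hu₀, hj, hav⟩ := avoiding δ hs w₀
  have hpre := prefixes δ (w₀.length + (j + 1) * Fintype.card Q)
  generalize Fintype.card Q / m + 1 = ψ at *
  generalize Fintype.card Q / N + 1 = D at *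
  set T := (Fintype.card Q - rk δ w₀) * (D + (Fintype.card Q - rk δ w₀) + ψ) +
    Fintype.card Q * D + 1 + Fintype.card Q + m * (w₀.length + Fintype.card Q) with hT
  have hgr := greedy δ w₀ (cost (Fintype.card Q) (rk δ w₀) D T) (by
    intro S hS h2
    unfold cost
    split_ifs with h
    · rcases le_total (fp (Fintype.card Q) S.card) T with h' | h'
      · rw [min_eq_left h']; exact frankl δ hs S h2
      · rw [min_eq_right h']; exact hkey S hS h h2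
    · exact frankl δ hs S h2)
  have hreset := reset_of_rk δ (w := u₀)
  clear hkey hψ hp hM
  generalize rk δ w₀ = r at *
  generalize w₀.length = L at *
  obtain ⟨h, hh⟩ := Nat.exists_eq_add_of_le hr
  have hsub : Fintype.card Q - r = h := by omega
  rw [hsub] at hT
  generalize Fintype.card Q = n at *
  set c : ℝ := (4 * N ^ 2 + 2) * (2 ^ m + 1) + 5 with hc
  have r1 : (1 : ℝ) ≤ n := by exact_mod_cast hn1
  have rN : (0 : ℝ) < N := by exact_mod_cast hN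
  have rm : (m : ℝ) = 4 * N ^ 2 := by rw [hm]; push_cast; rfl
  have rm0 : (0 : ℝ) ≤ m := Nat.cast_nonneg _
  have rh : (n : ℝ) = r + h := by exact_mod_cast hh
  have rh0 : (0 : ℝ) ≤ h := Nat.cast_nonneg _
  have rr0 : (0 : ℝ) ≤ r := Nat.cast_nonneg _
  have rj0 : (0 : ℝ) ≤ j := Nat.cast_nonneg _
  have rL0 : (0 : ℝ) ≤ L := Nat.cast_nonneg _
  have rD0 : (0 : ℝ) ≤ D := Nat.cast_nonneg _
  have rjr : (j : ℝ) ≤ r := by exact_mod_cast (by omega : j ≤ r)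
  have rL : (L : ℝ) ≤ 2 ^ m * n := by exact_mod_cast hL
  have rP : (0 : ℝ) ≤ 2 ^ m := by positivity
  rw [← rm] at hc
  have rc0 : 0 ≤ c := by rw [hc]; positivity
  have rc : 2 * 2 ^ m + 7 ≤ c := by rw [hc]; linarith [mul_nonneg rm0 rP]
  have rn0 : (0 : ℝ) ≤ n := Nat.cast_nonneg _
  have rnn : (n : ℝ) ≤ n ^ 2 := by linarith [mul_le_mul_of_nonneg_left r1 rn0]
  have rLc : (L : ℝ) ≤ c * n :=
    rL.trans (mul_le_mul_of_nonneg_right (by linarith) rn0)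
  have rT : (T : ℝ) ≤ h ^ 2 + 3 * n ^ 2 / N + c * n := by
    have a1 : (ψ : ℝ) ≤ D := by exact_mod_cast hψD
    have a0 : (0 : ℝ) ≤ ψ := Nat.cast_nonneg _
    have a2 : (h : ℝ) * (D + ψ) ≤ n * (D + D) := mul_le_mul (by linarith) (by linarith)
      (by linarith) (by linarith)
    have a3 : (n : ℝ) * D ≤ n * (n / N + 1) := mul_le_mul_of_nonneg_left hD (by linarith)
    have a4 : (m : ℝ) * L ≤ m * (2 ^ m * n) := mul_le_mul_of_nonneg_left rL rm0
    have a5 : (0 : ℝ) ≤ 2 ^ m * n := by positivity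
    have e : 3 * (n : ℝ) ^ 2 / N = 3 * (n * (n / N)) := by ring
    rw [hT, hc, e]
    push_cast
    linarith
  have ru : (u₀.length : ℝ) ≤ L + n ^ 2 := by
    have a1 : (u₀.length : ℝ) ≤ L + j * n := by exact_mod_cast hu₀
    have a2 : (j : ℝ) * n ≤ n * n := mul_le_mul_of_nonneg_right (by linarith) rn0
    linarith
  have rLn : (L : ℝ) ≤ 2 ^ m * n ^ 2 := by
    have : (2 : ℝ) ^ m * n ≤ 2 ^ m * n ^ 2 := mul_le_mul_of_nonneg_left rnn rP
    linarith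
  have rcn : (2 * 2 ^ m + 7) * (n : ℝ) ^ 2 ≤ c * n ^ 2 :=
    mul_le_mul_of_nonneg_right rc (sq_nonneg _)
  have rPn : (0 : ℝ) ≤ 2 ^ m * n ^ 2 := by positivity
  have rn2 : (0 : ℝ) ≤ n ^ 2 := sq_nonneg _
  rcases hav with hav | hav
  · refine ⟨u₀, hreset hav, ?_⟩
    have a1 : (0 : ℝ) ≤ (7 / 48 + 4 / (N : ℝ)) * n ^ 3 := by positivity
    have a2 : (0 : ℝ) ≤ c * n ^ 2 := by positivity
    linarith
  have hk₀ : r ≤ 2 * (r / 2 - 1) + 3 := by omega
  have rk₀ : (r : ℝ) ≤ 2 * ((r / 2 - 1 : ℕ) : ℝ) + 3 := by exact_mod_cast hk₀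
  have rk₁ : 2 * ((r / 2 - 1 : ℕ) : ℝ) ≤ r := by
    exact_mod_cast (by omega : 2 * (r / 2 - 1) ≤ r)
  have rk₂ : (0 : ℝ) ≤ ((r / 2 - 1 : ℕ) : ℝ) := Nat.cast_nonneg _
  rcases opt' n h j (by linarith) rh0 rj0 (by linarith) with hopt | ⟨z, hz1, hz2, hopt⟩
  · obtain ⟨w, hw, hl⟩ := hgr (max (r - j) (r / 2 - 1)) u₀ (by omega)
    have hs := sum_cost n r D T L (r / 2 - 1) (max (r - j) (r / 2 - 1)) _ (le_max_right _ _) le_rfl
      (by omega) hk₀
    have hl' : (w.length : ℝ) ≤ u₀.length + ((∑ k ∈ Finset.Ioc 0 (max (r - j) (r / 2 - 1)),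
        (L + cost n r D T k) : ℕ) : ℝ) := by exact_mod_cast hl
    have b0 : ((r / 2 - 1 : ℕ) : ℝ) ≤ ((max (r - j) (r / 2 - 1) : ℕ) : ℝ) := by
      exact_mod_cast le_max_right _ _
    have b1 : ((max (r - j) (r / 2 - 1) : ℕ) : ℝ) ≤ n := by
      exact_mod_cast (by omega : max (r - j) (r / 2 - 1) ≤ n)
    have b2 : ((max (r - j) (r / 2 - 1) : ℕ) : ℝ) - ((r / 2 - 1 : ℕ) : ℝ) ≤
        max 0 (((n : ℝ) - h) / 2 - j) + 2 := by
      have c1 := le_max_left 0 (((n : ℝ) - h) / 2 - j)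
      have c2 := le_max_right 0 (((n : ℝ) - h) / 2 - j)
      rcases le_total (r - j) (r / 2 - 1) with h' | h'
      · rw [max_eq_right h']; linarith
      · rw [max_eq_left h', Nat.cast_sub (by omega)]; linarith
    exact ⟨w, hw, finish n h N c L T D u₀.length _ _ _ _ 0 0 _ r1 rN rc0 rLc
      rT hD rh0 (by linarith) (by linarith) (by linarith) b2 (by linarith) (by linarith)
      (by linarith) (by linarith) (hl'.trans (add_le_add_right hs _))⟩
  · obtain ⟨u, hu, hul⟩ := hpre hav (r - j) u₀ (by omega)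
    obtain ⟨w, hw, hl⟩ := hgr (n / 2) u hu
    have z0 : 0 ≤ z := by linarith
    have z1 : z ≤ ⌈z⌉₊ := Nat.le_ceil z
    have z2 : (⌈z⌉₊ : ℝ) < z + 1 := Nat.ceil_lt_add_one z0
    have z3 : ⌈z⌉₊ ≤ n := Nat.ceil_le.2 (by linarith)
    have z4 : n ≤ 2 * ⌈z⌉₊ := by
      have : (n : ℝ) ≤ 2 * ⌈z⌉₊ := by linarith
      exact_mod_cast this
    have z5 : 2 * ⌈z⌉₊ < n + h + 2 := by
      have : 2 * (⌈z⌉₊ : ℝ) < n + h + 2 := by linarith
      exact_mod_cast this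
    have hs := sum_cost n r D T L (r / 2 - 1) (n - ⌈z⌉₊) (n / 2) (by omega) (by omega)
      (by omega) hk₀
    have hl' : (w.length : ℝ) ≤ u.length + ((∑ k ∈ Finset.Ioc 0 (n / 2),
        (L + cost n r D T k) : ℕ) : ℝ) := by exact_mod_cast hl
    have b0 : ((r / 2 - 1 : ℕ) : ℝ) ≤ ((n - ⌈z⌉₊ : ℕ) : ℝ) := by
      exact_mod_cast (by omega : r / 2 - 1 ≤ n - ⌈z⌉₊)
    have b1 : ((n - ⌈z⌉₊ : ℕ) : ℝ) = n - ⌈z⌉₊ := Nat.cast_sub z3
    have b2 : 2 * ((n / 2 : ℕ) : ℝ) ≤ n := by exact_mod_cast (by omega : 2 * (n / 2) ≤ n)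
    have b3 : (n : ℝ) ≤ 2 * ((n / 2 : ℕ) : ℝ) + 1 := by
      exact_mod_cast (by omega : n ≤ 2 * (n / 2) + 1)
    have b4 : ((r - j - n / 2 : ℕ) : ℝ) ≤ max 0 ((n : ℝ) / 2 - h - j) + 1 := by
      have c1 := le_max_left 0 ((n : ℝ) / 2 - h - j)
      have c2 := le_max_right 0 ((n : ℝ) / 2 - h - j)
      rcases le_total (r - j) (n / 2) with h' | h'
      · rw [Nat.sub_eq_zero_of_le h', Nat.cast_zero]; linarith
      · rw [Nat.cast_sub h', Nat.cast_sub (by omega)]; linarith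
    have b5 : ((r - j - n / 2 : ℕ) : ℝ) ≤ n := by exact_mod_cast (by omega : r - j - n / 2 ≤ n)
    have b6 : (u.length : ℝ) ≤ max 0 ((n : ℝ) / 2 - h - j) * j * n + c * n ^ 2 := by
      have c1 : (u.length : ℝ) ≤ u₀.length + ((r - j - n / 2 : ℕ) : ℝ) * (L + (j + 1) * n) := by
        exact_mod_cast hul
      have c2 : ((r - j - n / 2 : ℕ) : ℝ) * (L + n) ≤ n * (2 ^ m * n + n) :=
        mul_le_mul b5 (by linarith) (by linarith) (by linarith)
      have c3 : ((r - j - n / 2 : ℕ) : ℝ) * (j * n) ≤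
          (max 0 ((n : ℝ) / 2 - h - j) + 1) * (j * n) :=
        mul_le_mul_of_nonneg_right b4 (by positivity)
      have c4 : (j : ℝ) * n ≤ n * n := mul_le_mul_of_nonneg_right (by linarith) (by linarith)
      linarith
    have b7 : ((n : ℝ) - ((n - ⌈z⌉₊ : ℕ) : ℝ)) ^ 3 - ((n : ℝ) - ((n / 2 : ℕ) : ℝ)) ^ 3 ≤
        z ^ 3 - ((n : ℝ) / 2) ^ 3 + 7 * n ^ 2 := by
      have c1 : ((n : ℝ) - ((n - ⌈z⌉₊ : ℕ) : ℝ)) ^ 3 ≤ (z + 1) ^ 3 :=
        pow_le_pow_left₀ (by linarith) (by linarith) 3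
      have c2 : ((n : ℝ) / 2) ^ 3 ≤ ((n : ℝ) - ((n / 2 : ℕ) : ℝ)) ^ 3 :=
        pow_le_pow_left₀ (by linarith) (by linarith) 3
      have c3 : z ^ 2 ≤ n ^ 2 := pow_le_pow_left₀ z0 (by linarith) 2
      have c4 : (1 : ℝ) ≤ n ^ 2 := by linarith
      linarith
    exact ⟨w, hw, finish n h N c L T D u.length _ _ _ ((n + h) / 2 - z) _ _ _ r1 rN rc0 rLc
      rT hD rh0 (by linarith) b6 (by linarith) (by linarith) (by linarith)
      (by linarith) b7 hopt (hl'.trans (add_le_add_right hs _))⟩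

/-- All states can be sent into a closed set that every state reaches. -/
theorem into [Fintype Q] (δ : Q → A → Q) (C : Q → Prop) (hC : ∀ q w, C q → C (act δ q w))
    (hr : ∀ p, ∃ w, C (act δ p w)) (S : Finset Q) :
    ∃ z : List A, z.length ≤ S.card * Fintype.card Q ∧ ∀ p ∈ S, C (act δ p z) := by
  classical
  induction S using Finset.induction_on with
  | empty => exact ⟨[], by simp, by simp⟩
  | insert a S ha ih =>
    obtain ⟨z, hz, h⟩ := ih
    obtain ⟨w, hw, h'⟩ := reach δ C (act δ a z) (hr _)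
    refine ⟨z ++ w, ?_, fun p hp => ?_⟩
    · rw [List.length_append, Finset.card_insert_of_notMem ha, add_mul, one_mul]; omega
    · rw [act_append]
      rcases Finset.mem_insert.1 hp with rfl | hp
      · exact h'
      · exact hC _ _ (h p hp)

theorem act_sub (δ : Q → A → Q) (C : Q → Prop) (hC : ∀ q a, C q → C (δ q a)) (w : List A)
    (q : {q // C q}) :
    (act (fun (q : {q // C q}) a => (⟨δ q.1 a, hC _ a q.2⟩ : {q // C q})) q w).1 =
      act δ q.1 w := by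
  induction w generalizing q with
  | nil => rfl
  | cons a w ih => exact ih _

theorem seven (ε : ℝ) (hε : 0 < ε) : ∃ c : ℝ, ∀ (Q A : Type) [Fintype Q] [Nonempty Q]
    (δ : Q → A → Q), (∃ w, IsReset δ w) → ∃ w : List A, IsReset δ w ∧
      (w.length : ℝ) ≤ (7 / 48 + ε) * Fintype.card Q ^ 3 + c * Fintype.card Q ^ 2 := by
  classical
  obtain ⟨N, hN⟩ := exists_nat_gt (4 / ε)
  have rN : (0 : ℝ) < N := lt_trans (by positivity) hN
  have hN0 : 0 < N := by exact_mod_cast rN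
  have hε' : 4 / (N : ℝ) ≤ ε := by
    rw [div_le_iff₀ rN]
    rw [div_lt_iff₀ hε] at hN
    linarith
  set c₁ : ℝ := 3 * ((4 * N ^ 2 + 2) * (2 ^ (4 * N ^ 2) + 1) + 5 : ℝ) + 10 with hc₁
  have hc₁0 : 0 ≤ c₁ := by rw [hc₁]; positivity
  refine ⟨c₁ + 4 * N ^ 2 + 1, fun Q A _ hQ δ hs => ?_⟩
  obtain ⟨p₀⟩ := hQ
  obtain ⟨w₁, hw₁⟩ := hs
  let C : Q → Prop := fun q => ∃ u, act δ (act δ p₀ w₁) u = q
  have hC : ∀ q w, C q → C (act δ q w) := fun q w ⟨u, e⟩ => ⟨u ++ w, by rw [act_append, e]⟩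
  have hC1 : ∀ q a, C q → C (δ q a) := fun q a h => hC q [a] h
  obtain ⟨z, hz, hzC⟩ := into δ C hC (fun p => ⟨w₁, [], hw₁ p₀ p⟩) Finset.univ
  let δ' : {q // C q} → A → {q // C q} := fun q a => ⟨δ q.1 a, hC1 _ a q.2⟩
  have hact : ∀ w q, (act δ' q w).1 = act δ q.1 w := act_sub δ C hC1
  have : Nonempty {q // C q} := ⟨⟨_, [], rfl⟩⟩
  have hs' : ∃ w, IsReset δ' w := ⟨w₁, fun p q => Subtype.ext (by rw [hact, hact, hw₁])⟩
  have hsc : StronglyConnected δ' := by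
    intro p q
    obtain ⟨u, e⟩ := q.2
    exact ⟨w₁ ++ u, Subtype.ext (by rw [hact, act_append, hw₁ p.1 p₀, e])⟩
  have hle : (Fintype.card {q // C q} : ℝ) ≤ Fintype.card Q := by
    exact_mod_cast Fintype.card_subtype_le C
  have h0 : (0 : ℝ) ≤ Fintype.card {q // C q} := Nat.cast_nonneg _
  have h2 := pow_le_pow_left₀ h0 hle 2
  have h3 := pow_le_pow_left₀ h0 hle 3
  have hmain : ∃ w : List A, IsReset δ' w ∧ (w.length : ℝ) ≤
      (7 / 48 + ε) * Fintype.card Q ^ 3 + (c₁ + 4 * N ^ 2) * Fintype.card Q ^ 2 := by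
    have a0 : (0 : ℝ) ≤ (Fintype.card Q : ℝ) ^ 2 := sq_nonneg _
    by_cases hn : 4 * N ^ 2 ≤ Fintype.card {q // C q}
    · obtain ⟨w, hw, hl⟩ := large δ' hsc hs' N hN0 hn
      refine ⟨w, hw, hl.trans ?_⟩
      have a1 : (7 / 48 + 4 / (N : ℝ)) * Fintype.card {q // C q} ^ 3 ≤
          (7 / 48 + ε) * Fintype.card Q ^ 3 :=
        mul_le_mul (by linarith) h3 (by positivity) (by positivity)
      have a2 := mul_le_mul_of_nonneg_left h2 hc₁0
      have a3 : (0 : ℝ) ≤ 4 * N ^ 2 * Fintype.card Q ^ 2 := by positivity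
      linarith
    · obtain ⟨w, hw, hl⟩ := crude δ' hs'
      refine ⟨w, hw, ?_⟩
      have a1 : (w.length : ℝ) ≤ Fintype.card {q // C q} * Fintype.card {q // C q} ^ 2 := by
        exact_mod_cast hl
      have a2 : (Fintype.card {q // C q} : ℝ) ≤ 4 * N ^ 2 := by exact_mod_cast (not_le.1 hn).le
      have a3 := mul_le_mul a2 h2 (sq_nonneg _) (by positivity)
      have a4 : (0 : ℝ) ≤ (7 / 48 + ε) * Fintype.card Q ^ 3 := by positivity
      have a5 := mul_nonneg hc₁0 a0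
      linarith
  obtain ⟨w, hw, hl⟩ := hmain
  refine ⟨z ++ w, fun p q => ?_, ?_⟩
  · have e := congrArg Subtype.val
      (hw ⟨_, hzC p (Finset.mem_univ _)⟩ ⟨_, hzC q (Finset.mem_univ _)⟩)
    rw [hact, hact] at e
    rw [act_append, act_append, e]
  · have a1 : (z.length : ℝ) ≤ Fintype.card Q * Fintype.card Q := by
      rw [Finset.card_univ] at hz
      exact_mod_cast hz
    rw [List.length_append]
    push_cast
    linarith

end Pool.Agent.MP_aef39a_lc.H46
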